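import Mathlib

/-!
# Edge count of minimal strongly biconnected digraphs

For `MP_5e4462_co`.  A strongly biconnected digraph can be built from an arc by adding directed
ears with two different end points, each of which brings at least one new vertex.  Hence a minimal
strongly biconnected digraph on `n ≥ 3` vertices has at most `2n - 3` arcs, and this is attained.
-/

namespace Pool.Agent.Results.MP_5e4462_co.MinimalArcs

open Finset

variable {V : Type} [Fintype V] [DecidableEq V]

/-- `y` can be reached from `x` along arcs of `A`. -/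
def Reach (A : Finset (V × V)) (x y : V) : Prop :=
  Relation.ReflTransGen (fun a b => (a, b) ∈ A) x y

/-- `x` and `y` are connected in the underlying undirected graph after deletion of `c`. -/
def ConnAvoiding (A : Finset (V × V)) (c x y : V) : Prop :=
  Relation.ReflTransGen (fun a b => ((a, b) ∈ A ∨ (b, a) ∈ A) ∧ a ≠ c ∧ b ≠ c) x y

/-- The digraph with arc set `A` is strongly biconnected: it is strongly connected and deleting
any vertex `c` leaves its underlying undirected graph connected. -/
def StronglyBiconnected (A : Finset (V × V)) : Prop :=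
  (∀ x y, Reach A x y) ∧ (∀ c x y, x ≠ c → y ≠ c → ConnAvoiding A c x y)

/-- `A` is the arc set (without loops) of a minimal strongly biconnected digraph. -/
def IsMinimalSB (A : Finset (V × V)) : Prop :=
  (∀ a ∈ A, a.1 ≠ a.2) ∧ StronglyBiconnected A ∧ ∀ a ∈ A, ¬ StronglyBiconnected (A.erase a)

omit [Fintype V] [DecidableEq V] in
lemma Reach.mono {A B : Finset (V × V)} (h : A ⊆ B) {x y : V} (hr : Reach A x y) : Reach B x y :=
  Relation.ReflTransGen.mono (fun _ _ hab => h hab) _ _ hr

omit [Fintype V] [DecidableEq V] in
lemma ConnAvoiding.mono {A B : Finset (V × V)} (h : A ⊆ B) {c x y : V}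
    (hr : ConnAvoiding A c x y) : ConnAvoiding B c x y :=
  Relation.ReflTransGen.mono (fun _ _ hab => ⟨hab.1.imp (fun k => h k) (fun k => h k), hab.2⟩) _ _ hr

omit [Fintype V] [DecidableEq V] in
lemma ConnAvoiding.symm {A : Finset (V × V)} {c x y : V}
    (hr : ConnAvoiding A c x y) : ConnAvoiding A c y x := by
  induction hr with
  | refl => exact Relation.ReflTransGen.refl
  | tail _ hbc ih =>
    exact Relation.ReflTransGen.head ⟨hbc.1.symm, hbc.2.2, hbc.2.1⟩ ih

omit [Fintype V] [DecidableEq V] in
/-- A walk can be replaced by a path. -/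
lemma exists_path {R : V → V → Prop} {a b : V} (h : Relation.ReflTransGen R a b) :
    ∃ (n : ℕ) (q : ℕ → V), q 0 = a ∧ q n = b ∧ (∀ i < n, R (q i) (q (i + 1))) ∧
      ∀ i ≤ n, ∀ j ≤ n, q i = q j → i = j := by
  classical
  have hex : ∃ n : ℕ, ∃ q : ℕ → V, q 0 = a ∧ q n = b ∧ ∀ i < n, R (q i) (q (i + 1)) := by
    induction h with
    | refl => exact ⟨0, fun _ => a, rfl, rfl, fun i hi => absurd hi (by omega)⟩
    | @tail b c _ hbc ih =>
      obtain ⟨n, q, h0, hn, hq⟩ := ih
      refine ⟨n + 1, fun i => if i ≤ n then q i else c, by simp [h0], by simp, ?_⟩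
      intro i hi
      rcases Nat.lt_or_ge i n with h1 | h1
      · have h2 : i ≤ n := h1.le
        have h3 : i + 1 ≤ n := h1
        simp only [h2, h3, if_true]
        exact hq i h1
      · have h2 : i = n := by omega
        subst h2
        simp only [le_refl, if_true]
        rw [if_neg (by omega), hn]
        exact hbc
  obtain ⟨q, h0, hn, hq⟩ := Nat.find_spec hex
  refine ⟨Nat.find hex, q, h0, hn, hq, ?_⟩
  have key : ∀ i j, i < j → j ≤ Nat.find hex → q i ≠ q j := by
    intro i j hij hj heq
    have hlt : Nat.find hex - (j - i) < Nat.find hex := by omega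
    apply Nat.find_min hex hlt
    refine ⟨fun m => if m ≤ i then q m else q (m + (j - i)), by simp [h0], ?_, ?_⟩
    · beta_reduce
      rcases Nat.lt_or_ge j (Nat.find hex) with h1 | h1
      · rw [if_neg (by omega)]
        rw [show Nat.find hex - (j - i) + (j - i) = Nat.find hex by omega, hn]
      · have h2 : Nat.find hex - (j - i) = i := by omega
        rw [h2, if_pos (le_refl i), heq, ← hn]
        congr 1
        omega
    · intro m hm
      beta_reduce
      rcases Nat.lt_trichotomy m i with h1 | h1 | h1
      · rw [if_pos (by omega), if_pos (by omega)]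
        exact hq m (by omega)
      · subst h1
        rw [if_pos (le_refl m), if_neg (by omega), heq]
        have := hq j (by omega)
        rw [show m + 1 + (j - m) = j + 1 by omega]
        exact this
      · rw [if_neg (by omega), if_neg (by omega)]
        have := hq (m + (j - i)) (by omega)
        rw [show m + 1 + (j - i) = m + (j - i) + 1 by omega]
        exact this
  intro i hi j hj heq
  rcases Nat.lt_trichotomy i j with h1 | h1 | h1
  · exact absurd heq (key i j h1 hj)
  · exact h1
  · exact absurd heq.symm (key j i h1 hi)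

/-- A directed ear from `h` to `h'` with interior vertices `q 0, …, q n` outside `S`. -/
structure Ear (A : Finset (V × V)) (S : Finset V) (h h' : V) (n : ℕ) (q : ℕ → V) : Prop where
  first : (h, q 0) ∈ A
  last : (q n, h') ∈ A
  arc : ∀ i < n, (q i, q (i + 1)) ∈ A
  out : ∀ i ≤ n, q i ∉ S
  inj : ∀ i ≤ n, ∀ j ≤ n, q i = q j → i = j

/-- `B` is a set of arcs inside `S`, with few arcs, whose underlying graph on `S` has no
articulation point. -/
structure Pre (A : Finset (V × V)) (S : Finset V) (B : Finset (V × V)) : Prop where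
  sub : B ⊆ A
  inS : ∀ a ∈ B, a.1 ∈ S ∧ a.2 ∈ S
  bi : ∀ c, ∀ x ∈ S, ∀ y ∈ S, x ≠ c → y ≠ c → ConnAvoiding B c x y
  few : B.card + 3 ≤ 2 * S.card

omit [Fintype V] in
/-- Adding an ear. -/
lemma extend {A : Finset (V × V)} {S : Finset V} {B : Finset (V × V)} (hP : Pre A S B)
    {h h' : V} (hh : h ∈ S) (hh' : h' ∈ S) (hne : h ≠ h') {n : ℕ} {q : ℕ → V}
    (hE : Ear A S h h' n q) :
    ∃ S' B', S.card < S'.card ∧ B ⊆ B' ∧ Pre A S' B' ∧ Reach B' h h' ∧
      ((∀ s ∈ S, ∀ t ∈ S, Reach B' s t) → ∀ s ∈ S', ∀ t ∈ S', Reach B' s t) := by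
  classical
  set W : Finset V := (Finset.range (n + 1)).image q with hW
  set C : Finset (V × V) :=
    insert (h, q 0) (insert (q n, h') ((Finset.range n).image (fun i => (q i, q (i + 1))))) with hC
  have hmemW : ∀ x, x ∈ W ↔ ∃ i ≤ n, q i = x := by
    intro x
    simp [hW]
  have hcardW : W.card = n + 1 := by
    rw [hW, Finset.card_image_of_injOn, Finset.card_range]
    intro i hi j hj hij
    simp only [Finset.coe_range, Set.mem_Iio] at hi hj
    exact hE.inj i (by omega) j (by omega) hij
  have hdisj : Disjoint S W := by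
    rw [Finset.disjoint_left]
    intro x hx hxW
    obtain ⟨i, hi, rfl⟩ := (hmemW x).1 hxW
    exact hE.out i hi hx
  have hcardS : (S ∪ W).card = S.card + (n + 1) := by
    rw [Finset.card_union_of_disjoint hdisj, hcardW]
  have hcardC : C.card ≤ n + 2 := by
    rw [hC]
    refine (Finset.card_insert_le _ _).trans ?_
    have h1 := Finset.card_insert_le (q n, h') ((Finset.range n).image (fun i => (q i, q (i + 1))))
    have h2 : ((Finset.range n).image (fun i => (q i, q (i + 1)))).card ≤ n := by
      simpa using Finset.card_image_le (s := Finset.range n) (f := fun i => (q i, q (i + 1)))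
    omega
  have hfirst : (h, q 0) ∈ B ∪ C := by simp [hC]
  have hlast : (q n, h') ∈ B ∪ C := by simp [hC]
  have harc : ∀ i < n, (q i, q (i + 1)) ∈ B ∪ C := by
    intro i hi
    rw [Finset.mem_union]
    right
    rw [hC, Finset.mem_insert, Finset.mem_insert]
    right; right
    exact Finset.mem_image.2 ⟨i, Finset.mem_range.2 hi, rfl⟩
  have hfrom : ∀ i ≤ n, Reach (B ∪ C) h (q i) := by
    intro i
    induction i with
    | zero => intro _; exact Relation.ReflTransGen.single hfirst
    | succ i ih => intro hi; exact Relation.ReflTransGen.tail (ih (by omega)) (harc i (by omega))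
  have hto : ∀ i ≤ n, Reach (B ∪ C) (q i) h' := by
    intro i hi
    induction hk : n - i generalizing i with
    | zero =>
      have : i = n := by omega
      subst this
      exact Relation.ReflTransGen.single hlast
    | succ k ih =>
      exact Relation.ReflTransGen.head (harc i (by omega)) (ih (i + 1) (by omega) (by omega))
  have hsubA : B ∪ C ⊆ A := by
    apply Finset.union_subset hP.sub
    intro a ha
    rw [hC, Finset.mem_insert, Finset.mem_insert, Finset.mem_image] at ha
    rcases ha with rfl | rfl | ⟨i, hi, rfl⟩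
    · exact hE.first
    · exact hE.last
    · exact hE.arc i (Finset.mem_range.1 hi)
  have hqW : ∀ i ≤ n, q i ∈ S ∪ W := fun i hi =>
    Finset.mem_union_right _ ((hmemW _).2 ⟨i, hi, rfl⟩)
  refine ⟨S ∪ W, B ∪ C, by omega, Finset.subset_union_left, ⟨hsubA, ?_, ?_, ?_⟩, ?_, ?_⟩
  · intro a ha
    rcases Finset.mem_union.1 ha with ha | ha
    · exact ⟨Finset.mem_union_left _ (hP.inS a ha).1, Finset.mem_union_left _ (hP.inS a ha).2⟩
    · rw [hC, Finset.mem_insert, Finset.mem_insert, Finset.mem_image] at ha
      rcases ha with rfl | rfl | ⟨i, hi, rfl⟩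
      · exact ⟨Finset.mem_union_left _ hh, hqW 0 (by omega)⟩
      · exact ⟨hqW n le_rfl, Finset.mem_union_left _ hh'⟩
      · have hi' := Finset.mem_range.1 hi
        exact ⟨hqW i (by omega), hqW (i + 1) (by omega)⟩
  · intro c
    -- every vertex other than `c` is connected to a vertex of `S` other than `c`
    have hconn : ∀ x ∈ S ∪ W, x ≠ c → ∃ s ∈ S, s ≠ c ∧ ConnAvoiding (B ∪ C) c x s := by
      intro x hx hxc
      rcases Finset.mem_union.1 hx with hxS | hxW
      · exact ⟨x, hxS, hxc, Relation.ReflTransGen.refl⟩
      · obtain ⟨i, hi, rfl⟩ := (hmemW x).1 hxW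
        by_cases hD : h ≠ c ∧ ∀ m ≤ i, q m ≠ c
        · refine ⟨h, hh, hD.1, ?_⟩
          have : ∀ m ≤ i, ConnAvoiding (B ∪ C) c (q m) h := by
            intro m
            induction m with
            | zero => 
              intro _
              exact Relation.ReflTransGen.single ⟨Or.inr hfirst, hD.2 0 (by omega), hD.1⟩
            | succ m ih =>
              intro hm
              exact Relation.ReflTransGen.head
                ⟨Or.inr (harc m (by omega)), hD.2 _ hm, hD.2 m (by omega)⟩ (ih (by omega))
          exact this i le_rfl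
        · have hU : h' ≠ c ∧ ∀ m, i ≤ m → m ≤ n → q m ≠ c := by
            by_contra hU
            have hc1 : h = c ∨ ∃ m ≤ i, q m = c := by
              by_contra hcon
              push Not at hcon
              exact hD hcon
            have hc2 : h' = c ∨ ∃ m, i ≤ m ∧ m ≤ n ∧ q m = c := by
              by_contra hcon
              push Not at hcon
              exact hU hcon
            rcases hc1 with rfl | ⟨m, hm, hmc⟩
            · rcases hc2 with h2 | ⟨m', _, hm', hmc'⟩
              · exact hne h2.symm
              · exact hE.out m' hm' (hmc' ▸ hh)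
            · rcases hc2 with h2 | ⟨m', him', hm', hmc'⟩
              · exact hE.out m (by omega) (by rw [hmc, ← h2]; exact hh')
              · have := hE.inj m (by omega) m' hm' (by rw [hmc, hmc'])
                have hmi : m = i := by omega
                subst hmi
                exact hxc hmc
          refine ⟨h', hh', hU.1, ?_⟩
          have : ∀ k, ∀ m, n - m = k → i ≤ m → m ≤ n → ConnAvoiding (B ∪ C) c (q m) h' := by
            intro k
            induction k with
            | zero =>
              intro m hk him hm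
              have : m = n := by omega
              subst this
              exact Relation.ReflTransGen.single ⟨Or.inl hlast, hU.2 m him le_rfl, hU.1⟩
            | succ k ih =>
              intro m hk him hm
              exact Relation.ReflTransGen.head
                ⟨Or.inl (harc m (by omega)), hU.2 m him hm, hU.2 (m + 1) (by omega) (by omega)⟩
                (ih (m + 1) (by omega) (by omega) (by omega))
          exact this (n - i) i rfl le_rfl hi
    intro x hx y hy hxc hyc
    obtain ⟨s, hs, hsc, h1⟩ := hconn x hx hxc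
    obtain ⟨t, ht, htc, h2⟩ := hconn y hy hyc
    have h3 : ConnAvoiding (B ∪ C) c s t :=
      ConnAvoiding.mono Finset.subset_union_left (hP.bi c s hs t ht hsc htc)
    exact (h1.trans h3).trans h2.symm
  · have h1 : (B ∪ C).card ≤ B.card + C.card := Finset.card_union_le _ _
    have h2 := hP.few
    omega
  · exact (hfrom n le_rfl).tail hlast
  · intro hS s hs t ht
    have h1 : ∃ s' ∈ S, Reach (B ∪ C) s s' := by
      rcases Finset.mem_union.1 hs with h1 | h1
      · exact ⟨s, h1, Relation.ReflTransGen.refl⟩
      · obtain ⟨i, hi, rfl⟩ := (hmemW s).1 h1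
        exact ⟨h', hh', hto i hi⟩
    have h2 : ∃ t' ∈ S, Reach (B ∪ C) t' t := by
      rcases Finset.mem_union.1 ht with h1 | h1
      · exact ⟨t, h1, Relation.ReflTransGen.refl⟩
      · obtain ⟨i, hi, rfl⟩ := (hmemW t).1 h1
        exact ⟨h, hh, hfrom i hi⟩
    obtain ⟨s', hs', h3⟩ := h1
    obtain ⟨t', ht', h4⟩ := h2
    exact (h3.trans (hS s' hs' t' ht')).trans h4

/-- Existence of an ear with two different end points. -/
lemma exists_ear {A : Finset (V × V)} (hA : StronglyBiconnected A) {S : Finset V}
    (hS2 : 2 ≤ S.card) (hS : S ≠ univ) :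
    ∃ h ∈ S, ∃ h' ∈ S, h ≠ h' ∧ ∃ n q, Ear A S h h' n q := by
  classical
  -- arcs outside `S`
  let R : V → V → Prop := fun a b => (a, b) ∈ A ∧ a ∉ S ∧ b ∉ S
  let From : V → V → Prop := fun h w => ∃ w0, (h, w0) ∈ A ∧ w0 ∉ S ∧ Relation.ReflTransGen R w0 w
  let To : V → V → Prop := fun w h => ∃ w1, Relation.ReflTransGen R w w1 ∧ w1 ∉ S ∧ (w1, h) ∈ A
  by_contra hcon
  have huniq : ∀ h ∈ S, ∀ h' ∈ S, ∀ w, From h w → To w h' → h = h' := by
    intro h hh h' hh' w ⟨w0, h1, h2, h3⟩ ⟨w1, h4, h5, h6⟩
    by_contra hne
    apply hcon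
    obtain ⟨n, q, hq0, hqn, hq, hinj⟩ := exists_path (h3.trans h4)
    refine ⟨h, hh, h', hh', hne, n, q, ⟨by rw [hq0]; exact h1, by rw [hqn]; exact h6,
      fun i hi => (hq i hi).1, ?_, hinj⟩⟩
    intro i hi
    rcases Nat.lt_or_ge i n with hin | hin
    · exact (hq i hin).2.1
    · have : i = n := by omega
      rw [this, hqn]; exact h5
  have hfrom : ∀ w, w ∉ S → ∃ h ∈ S, From h w := by
    intro w hw
    obtain ⟨s, hs⟩ : S.Nonempty := by
      rw [← Finset.card_pos]; omega
    have hr := hA.1 s w
    -- last exit from `S`
    have : ∀ z, Reach A s z → z ∉ S → ∃ h ∈ S, From h z := by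
      intro z hz
      induction hz with
      | refl => intro hns; exact absurd hs hns
      | @tail b c _ hbc ih =>
        intro hc
        by_cases hb : b ∈ S
        · exact ⟨b, hb, c, hbc, hc, Relation.ReflTransGen.refl⟩
        · obtain ⟨h, hh, w0, h1, h2, h3⟩ := ih hb
          exact ⟨h, hh, w0, h1, h2, h3.tail ⟨hbc, hb, hc⟩⟩
    exact this w hr hw
  have hto : ∀ w, w ∉ S → ∃ h ∈ S, To w h := by
    intro w hw
    obtain ⟨s, hs⟩ : S.Nonempty := by
      rw [← Finset.card_pos]; omega
    have hr := hA.1 w s
    have : ∀ z, Reach A z s → z ∉ S → ∃ h ∈ S, To z h := by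
      intro z hz
      induction hz using Relation.ReflTransGen.head_induction_on with
      | refl => intro hns; exact absurd hs hns
      | @head b c hbc _ ih =>
        intro hb
        by_cases hc : c ∈ S
        · exact ⟨c, hc, b, Relation.ReflTransGen.refl, hb, hbc⟩
        · obtain ⟨h, hh, w1, h1, h2, h3⟩ := ih hc
          exact ⟨h, hh, w1, Relation.ReflTransGen.head ⟨hbc, hb, hc⟩ h1, h2, h3⟩
    exact this w hr hw
  -- pick a vertex outside `S`
  obtain ⟨w, hw⟩ : ∃ w, w ∉ S := by
    by_contra hall
    push Not at hall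
    exact hS (Finset.eq_univ_of_forall hall)
  obtain ⟨c, hc, hcw⟩ := hfrom w hw
  obtain ⟨s, hs, hsc⟩ : ∃ s ∈ S, s ≠ c := by
    by_contra hall
    push Not at hall
    have : S ⊆ {c} := fun x hx => Finset.mem_singleton.2 (hall x hx)
    have := Finset.card_le_card this
    simp at this
    omega
  have hwc : w ≠ c := fun h => hw (h ▸ hc)
  have hinv : ∀ z, ConnAvoiding A c w z → z ∉ S ∧ From c z := by
    intro z hz
    induction hz with
    | refl => exact ⟨hw, hcw⟩
    | @tail b d _ hbd ih =>
      obtain ⟨hbS, hbF⟩ := ih
      have hbT : To b c := by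
        obtain ⟨h', hh', hT⟩ := hto b hbS
        have := huniq c hc h' hh' b hbF hT
        rw [this]; exact hT
      obtain ⟨hadj, hbc, hdc⟩ := hbd
      by_cases hdS : d ∈ S
      · exfalso
        rcases hadj with h1 | h1
        · exact hdc (huniq c hc d hdS b hbF ⟨b, Relation.ReflTransGen.refl, hbS, h1⟩).symm
        · exact hdc (huniq d hdS c hc b ⟨b, h1, hbS, Relation.ReflTransGen.refl⟩ hbT)
      · refine ⟨hdS, ?_⟩
        rcases hadj with h1 | h1
        · obtain ⟨w0, h2, h3, h4⟩ := hbF
          exact ⟨w0, h2, h3, h4.tail ⟨h1, hbS, hdS⟩⟩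
        · obtain ⟨h'', hh'', hF⟩ := hfrom d hdS
          have hT : To d c := by
            obtain ⟨w1, h2, h3, h4⟩ := hbT
            exact ⟨w1, Relation.ReflTransGen.head ⟨h1, hdS, hbS⟩ h2, h3, h4⟩
          have := huniq h'' hh'' c hc d hF hT
          rw [← this]; exact hF
  exact (hinv s (hA.2 c w s hwc hsc)).1 hs

/-- Growing to a spanning subdigraph. -/
lemma grow {A : Finset (V × V)} (hA : StronglyBiconnected A) :
    ∀ (k : ℕ) (S : Finset V) (B : Finset (V × V)), Fintype.card V - S.card = k →
      2 ≤ S.card → Pre A S B → (∀ s ∈ S, ∀ t ∈ S, Reach B s t) →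
      ∃ B', Pre A univ B' ∧ ∀ s t, Reach B' s t := by
  intro k
  induction k using Nat.strong_induction_on with
  | _ k ih =>
    intro S B hk h2 hP hR
    by_cases hS : S = univ
    · subst hS
      exact ⟨B, hP, fun s t => hR s (Finset.mem_univ s) t (Finset.mem_univ t)⟩
    · obtain ⟨h, hh, h', hh', hne, n, q, hE⟩ := exists_ear hA h2 hS
      obtain ⟨S', B', hlt, hBB, hP', -, hR'⟩ := extend hP hh hh' hne hE
      have hle : S'.card ≤ Fintype.card V := Finset.card_le_univ S'
      exact ih (Fintype.card V - S'.card) (by omega) S' B' rfl (by omega) hP'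
        (hR' (fun s hs t ht => Reach.mono hBB (hR s hs t ht)))

/-- A minimal strongly biconnected digraph on `n ≥ 3` vertices has at most `2n - 3` arcs. -/
lemma bound {A : Finset (V × V)} (hA : IsMinimalSB A) (hn : 3 ≤ Fintype.card V) :
    A.card + 3 ≤ 2 * Fintype.card V := by
  classical
  obtain ⟨hloop, hSB, hmin⟩ := hA
  -- an arc and an ear closing it to a cycle
  have hstart : ∃ h h' : V, h ≠ h' ∧ (h', h) ∈ A ∧ ∃ n q, Ear A {h, h'} h h' n q := by
    by_cases hsym : ∀ x y, (x, y) ∈ A → (y, x) ∈ A
    · -- symmetric case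
      have : ∃ x y, (x, y) ∈ A := by
        obtain ⟨x, y, hxy⟩ : ∃ x y : V, x ≠ y := by
          have : 1 < Fintype.card V := by omega
          exact Fintype.exists_pair_of_one_lt_card this
        have hr := hSB.1 x y
        rcases Relation.ReflTransGen.cases_head hr with h1 | ⟨z, h1, _⟩
        · exact absurd h1 hxy
        · exact ⟨x, z, h1⟩
      obtain ⟨x, y, hxy⟩ := this
      have hne : x ≠ y := hloop (x, y) hxy
      have hyx := hsym x y hxy
      have hcard : ({x, y} : Finset V).card = 2 := Finset.card_pair hne
      have hnu : ({x, y} : Finset V) ≠ univ := by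
        intro h
        have := congrArg Finset.card h
        rw [hcard, Finset.card_univ] at this
        omega
      obtain ⟨h, hh, h', hh', hne', n, q, hE⟩ := exists_ear hSB (by omega) hnu
      simp only [Finset.mem_insert, Finset.mem_singleton] at hh hh'
      have hpair : ({h, h'} : Finset V) = {x, y} := by
        rcases hh with rfl | rfl
        · rcases hh' with rfl | rfl
          · exact absurd rfl hne'
          · rfl
        · rcases hh' with rfl | rfl
          · exact Finset.pair_comm _ _
          · exact absurd rfl hne'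
      refine ⟨h, h', hne', ?_, n, q, by rw [hpair]; exact hE⟩
      rcases hh with rfl | rfl
      · rcases hh' with rfl | rfl
        · exact absurd rfl hne'
        · exact hyx
      · rcases hh' with rfl | rfl
        · exact hxy
        · exact absurd rfl hne'
    · push Not at hsym
      obtain ⟨x, y, hxy, hyx⟩ := hsym
      have hne : x ≠ y := hloop (x, y) hxy
      obtain ⟨m, q, hq0, hqm, hq, hinj⟩ := exists_path (hSB.1 y x)
      have hm2 : 2 ≤ m := by
        by_contra hlt
        have : m = 0 ∨ m = 1 := by omega
        rcases this with rfl | rfl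
        · exact hne (hqm.symm.trans hq0)
        · have := hq 0 (by omega)
          rw [hq0, hqm] at this
          exact hyx this
      refine ⟨y, x, hne.symm, hxy, m - 2, fun i => q (i + 1), ⟨?_, ?_, ?_, ?_, ?_⟩⟩
      · have := hq 0 (by omega)
        rw [hq0] at this
        exact this
      · have := hq (m - 1) (by omega)
        rw [show m - 1 + 1 = m by omega, hqm] at this
        simpa [show m - 2 + 1 = m - 1 by omega] using this
      · intro i hi
        exact hq (i + 1) (by omega)
      · intro i hi hmem
        simp only [Finset.mem_insert, Finset.mem_singleton] at hmem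
        rcases hmem with h1 | h1
        · have := hinj (i + 1) (by omega) 0 (by omega) (by rw [hq0]; exact h1)
          omega
        · have := hinj (i + 1) (by omega) m le_rfl (by rw [hqm]; exact h1)
          omega
      · intro i hi j hj hij
        have := hinj (i + 1) (by omega) (j + 1) (by omega) hij
        omega
  obtain ⟨h, h', hne, harc, n, q, hE⟩ := hstart
  have hP : Pre A {h, h'} {(h', h)} := by
    refine ⟨by simpa using harc, by simp, ?_, ?_⟩
    · intro c x hx y hy hxc hyc
      simp only [Finset.mem_insert, Finset.mem_singleton] at hx hy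
      rcases hx with rfl | rfl
      · rcases hy with rfl | rfl
        · exact Relation.ReflTransGen.refl
        · exact Relation.ReflTransGen.single ⟨Or.inr (by simp), hxc, hyc⟩
      · rcases hy with rfl | rfl
        · exact Relation.ReflTransGen.single ⟨Or.inl (by simp), hxc, hyc⟩
        · exact Relation.ReflTransGen.refl
    · rw [Finset.card_pair hne]; simp
  obtain ⟨S', B', hlt, hBB, hP', hreach, hR'⟩ := extend hP (by simp) (by simp) hne hE
  have hR : ∀ s ∈ S', ∀ t ∈ S', Reach B' s t := by
    apply hR'
    intro s hs t ht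
    have hback : Reach B' h' h := Relation.ReflTransGen.single (hBB (by simp))
    simp only [Finset.mem_insert, Finset.mem_singleton] at hs ht
    rcases hs with rfl | rfl
    · rcases ht with rfl | rfl
      · exact Relation.ReflTransGen.refl
      · exact hreach
    · rcases ht with rfl | rfl
      · exact hback
      · exact Relation.ReflTransGen.refl
  rw [Finset.card_pair hne] at hlt
  obtain ⟨D, hPD, hRD⟩ := grow hSB _ S' B' rfl (by omega) hP' hR
  have hDA : D = A := by
    apply Finset.Subset.antisymm hPD.sub
    intro a ha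
    by_contra haD
    apply hmin a ha
    have hsub : D ⊆ A.erase a := by
      intro b hb
      exact Finset.mem_erase.2 ⟨fun hba => haD (hba ▸ hb), hPD.sub hb⟩
    refine ⟨fun x y => Reach.mono hsub (hRD x y), fun c x y hx hy => ?_⟩
    exact ConnAvoiding.mono hsub (hPD.bi c x (Finset.mem_univ x) y (Finset.mem_univ y) hx hy)
  have := hPD.few
  rw [hDA, Finset.card_univ] at this
  exact this

/-- The extremal example on `Fin n`, `n ≥ 3`, with two special vertices `a`, `b`: the arc `(b, a)`
and the arcs `(a, i)`, `(i, b)` for all other vertices `i`. -/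
def example₀ (a b : V) : Finset (V × V) :=
  insert (b, a) (({a} ×ˢ (univ \ {a, b})) ∪ ((univ \ {a, b}) ×ˢ {b}))

lemma mem_example₀ {a b : V} {x y : V} : (x, y) ∈ example₀ a b ↔
    (x = b ∧ y = a) ∨ (x = a ∧ y ≠ a ∧ y ≠ b) ∨ (y = b ∧ x ≠ a ∧ x ≠ b) := by
  unfold example₀
  simp only [Finset.mem_insert, Finset.mem_union, Finset.mem_product, Finset.mem_singleton,
    Finset.mem_sdiff, Finset.mem_univ, true_and, Prod.mk.injEq, not_or]
  tauto

lemma card_example₀ {a b : V} (hab : a ≠ b) :
    (example₀ a b).card + 3 = 2 * Fintype.card V := by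
  classical
  have hT : (univ \ {a, b} : Finset V).card = Fintype.card V - 2 := by
    rw [Finset.card_sdiff_of_subset (Finset.subset_univ _), Finset.card_univ, Finset.card_pair hab]
  have h2 : 2 ≤ Fintype.card V := by
    have := Finset.card_le_univ ({a, b} : Finset V)
    rwa [Finset.card_pair hab] at this
  unfold example₀
  rw [Finset.card_insert_of_notMem, Finset.card_union_of_disjoint, Finset.card_product,
    Finset.card_product, Finset.card_singleton, Finset.card_singleton, hT]
  · omega
  · rw [Finset.disjoint_left]
    rintro ⟨x, y⟩ h1 h3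
    simp only [Finset.mem_product, Finset.mem_singleton, Finset.mem_sdiff, Finset.mem_univ,
      true_and, Finset.mem_insert, not_or] at h1 h3
    exact h3.1.1 h1.1
  · intro h
    rw [Finset.mem_union, Finset.mem_product, Finset.mem_product] at h
    rcases h with h | h
    · exact hab (Finset.mem_singleton.1 h.1).symm
    · exact hab (Finset.mem_singleton.1 h.2)

lemma isMinimal_example₀ {a b : V} (hab : a ≠ b) (hn : 3 ≤ Fintype.card V) :
    IsMinimalSB (example₀ a b) := by
  classical
  have hba : (b, a) ∈ example₀ a b := mem_example₀.2 (Or.inl ⟨rfl, rfl⟩)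
  have hai : ∀ i, i ≠ a → i ≠ b → (a, i) ∈ example₀ a b := fun i h1 h2 =>
    mem_example₀.2 (Or.inr (Or.inl ⟨rfl, h1, h2⟩))
  have hib : ∀ i, i ≠ a → i ≠ b → (i, b) ∈ example₀ a b := fun i h1 h2 =>
    mem_example₀.2 (Or.inr (Or.inr ⟨rfl, h1, h2⟩))
  obtain ⟨t, hta, htb⟩ : ∃ t : V, t ≠ a ∧ t ≠ b := by
    by_contra hcon
    push Not at hcon
    have : (univ : Finset V) ⊆ {a, b} := by
      intro x _
      by_cases hx : x = a
      · simp [hx]
      · simp [hcon x hx]
    have := Finset.card_le_card this
    rw [Finset.card_univ, Finset.card_pair hab] at this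
    omega
  refine ⟨?_, ⟨?_, ?_⟩, ?_⟩
  · rintro ⟨x, y⟩ h
    rcases mem_example₀.1 h with ⟨rfl, rfl⟩ | ⟨rfl, h1, _⟩ | ⟨rfl, _, h1⟩
    · exact hab.symm
    · exact h1.symm
    · exact h1
  · -- strongly connected
    have hto : ∀ x, Reach (example₀ a b) x a := by
      intro x
      by_cases hxa : x = a
      · subst hxa; exact Relation.ReflTransGen.refl
      by_cases hxb : x = b
      · subst hxb; exact Relation.ReflTransGen.single hba
      · exact (Relation.ReflTransGen.single (hib x hxa hxb)).tail hba
    have hfrom : ∀ x, Reach (example₀ a b) a x := by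
      intro x
      by_cases hxa : x = a
      · subst hxa; exact Relation.ReflTransGen.refl
      by_cases hxb : x = b
      · subst hxb
        exact (Relation.ReflTransGen.single (hai t hta htb)).tail (hib t hta htb)
      · exact Relation.ReflTransGen.single (hai x hxa hxb)
    intro x y
    exact (hto x).trans (hfrom y)
  · -- no articulation point
    intro c
    by_cases hca : c = a
    · subst hca
      have : ∀ x, x ≠ c → ConnAvoiding (example₀ c b) c x b := by
        intro x hx
        by_cases hxb : x = b
        · subst hxb; exact Relation.ReflTransGen.refl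
        · exact Relation.ReflTransGen.single ⟨Or.inl (hib x hx hxb), hx, hab.symm⟩
      intro x y hx hy
      exact (this x hx).trans (this y hy).symm
    · have : ∀ x, x ≠ c → ConnAvoiding (example₀ a b) c x a := by
        intro x hx
        by_cases hxa : x = a
        · subst hxa; exact Relation.ReflTransGen.refl
        by_cases hxb : x = b
        · subst hxb
          exact Relation.ReflTransGen.single ⟨Or.inl hba, hx, fun h => hca h.symm⟩
        · exact Relation.ReflTransGen.single ⟨Or.inr (hai x hxa hxb), hx, fun h => hca h.symm⟩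
      intro x y hx hy
      exact (this x hx).trans (this y hy).symm
  · -- minimality
    rintro ⟨x, y⟩ hxy ⟨hr, -⟩
    rcases mem_example₀.1 hxy with ⟨rfl, rfl⟩ | ⟨rfl, h1, h2⟩ | ⟨rfl, h1, h2⟩
    · -- `b` has no out-arc any more
      rcases Relation.ReflTransGen.cases_head (hr x y) with h | ⟨z, h, _⟩
      · exact hab h.symm
      · rw [Finset.mem_erase, mem_example₀] at h
        rcases h with ⟨h3, ⟨_, h4⟩ | ⟨h4, _⟩ | ⟨_, _, h4⟩⟩
        · exact h3 (by rw [h4])
        · exact hab h4.symm
        · exact h4 rfl
    · -- `y` has no in-arc any more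
      rcases Relation.ReflTransGen.cases_tail (hr x y) with h | ⟨z, _, h⟩
      · exact h1 h
      · rw [Finset.mem_erase, mem_example₀] at h
        rcases h with ⟨h3, ⟨_, h4⟩ | ⟨h4, _⟩ | ⟨h4, _⟩⟩
        · exact h1 h4
        · exact h3 (by rw [h4])
        · exact h2 h4
    · -- `x` has no out-arc any more
      rcases Relation.ReflTransGen.cases_head (hr x y) with h | ⟨z, h, _⟩
      · exact h2 h
      · rw [Finset.mem_erase, mem_example₀] at h
        rcases h with ⟨h3, ⟨h4, _⟩ | ⟨h4, _⟩ | ⟨h4, _⟩⟩
        · exact h2 h4
        · exact h1 h4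
        · exact h3 (by rw [h4])

/-- Every minimal strongly biconnected digraph on `n` vertices has at most `2n` arcs; for `n ≥ 3`
the exact maximum number of arcs is `2n - 3`. -/
theorem result :
    (∀ (n : ℕ) (A : Finset (Fin n × Fin n)), IsMinimalSB A → A.card ≤ 2 * n) ∧
    (∀ n : ℕ, 3 ≤ n →
      IsGreatest {m : ℕ | ∃ A : Finset (Fin n × Fin n), IsMinimalSB A ∧ A.card = m}
        (2 * n - 3)) := by
  have hub : ∀ (n : ℕ) (A : Finset (Fin n × Fin n)), 3 ≤ n → IsMinimalSB A →
      A.card + 3 ≤ 2 * n := by
    intro n A hn hA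
    have := bound hA (by simpa using hn)
    simpa using this
  refine ⟨?_, ?_⟩
  · intro n A hA
    rcases Nat.lt_or_ge n 3 with hn | hn
    · have hsub : A ⊆ (univ : Finset (Fin n)).offDiag := by
        intro a ha
        exact Finset.mem_offDiag.2 ⟨Finset.mem_univ _, Finset.mem_univ _, hA.1 a ha⟩
      have hc := Finset.card_le_card hsub
      rw [Finset.offDiag_card, Finset.card_univ, Fintype.card_fin] at hc
      interval_cases n <;> omega
    · have := hub n A hn hA
      omega
  · intro n hn
    refine ⟨?_, ?_⟩
    · have h01 : (⟨0, by omega⟩ : Fin n) ≠ ⟨1, by omega⟩ := by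
        intro h
        have := congrArg Fin.val h
        simp at this
      refine ⟨example₀ ⟨0, by omega⟩ ⟨1, by omega⟩, isMinimal_example₀ h01 (by simpa using hn), ?_⟩
      have := card_example₀ h01
      rw [Fintype.card_fin] at this
      omega
    · rintro m ⟨A, hA, rfl⟩
      have := hub n A hn hA
      omega

end Pool.Agent.Results.MP_5e4462_co.MinimalArcs
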